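import Mathlib
import Pool.Agent.H.MP_42a2a8_gt.Poset

set_option autoImplicit false

namespace Pool.Agent.H.MP_87f021_gt

open Set Function Cardinal

inductive T : Type
  | root : T
  | S (a : T) (b : Bool) : T
  | V (W : ℕ → T) (e : ℕ → Bool) (n : ℕ) : T

abbrev Al : Type := Bool × Bool × (ℕ → Bool) × ℕ

abbrev Br (a : Al) : Type := {_n : ℕ // a.1 = true}

def enc : T → WType Br
  | .root => ⟨(false, false, fun _ => false, 0), fun x => absurd x.2 (by simp)⟩
  | .S a b => ⟨(true, false, fun _ => b, 0), fun _ => enc a⟩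
  | .V W e n => ⟨(true, true, e, n), fun x => enc (W x.1)⟩

lemma enc_inj : Injective enc := by
  intro a
  induction a with
  | root => intro b h; cases b <;> simp [enc] at h ⊢
  | S a b ih =>
    intro c h
    cases c with
    | root => simp [enc] at h
    | V => simp [enc] at h
    | S a' b' =>
      simp only [enc, WType.mk.injEq, Prod.mk.injEq, true_and, and_true] at h
      obtain ⟨h1, h2⟩ := h
      have h3 : b = b' := congrFun h1 0
      subst h3
      rw [ih (congrFun (eq_of_heq h2) ⟨0, rfl⟩)]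
  | V W e n ih =>
    intro c h
    cases c with
    | root => simp [enc] at h
    | S => simp [enc] at h
    | V W' e' n' =>
      simp only [enc, WType.mk.injEq, Prod.mk.injEq, true_and] at h
      obtain ⟨⟨rfl, rfl⟩, h2⟩ := h
      have : W = W' := funext fun k => ih k (congrFun (eq_of_heq h2) ⟨k, rfl⟩)
      rw [this]

lemma card_T : #T ≤ 𝔠 := by
  refine (Cardinal.mk_le_of_injective enc_inj).trans (WType.cardinalMk_le_of_le ?_)
  refine (Cardinal.sum_le_sum _ (fun _ => 𝔠) fun a => ?_).trans ?_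
  · rw [← Cardinal.continuum_power_aleph0]
    conv_lhs => rw [Cardinal.continuum_power_aleph0]
    exact Cardinal.power_le_power_left Cardinal.continuum_ne_zero Cardinal.mk_le_aleph0
  · simp

def par : T → T
  | .root => .root
  | .S a _ => a
  | .V W _ n => W n

def dep : T → ℕ
  | .root => 0
  | .S a _ => dep a + 1
  | .V W _ n => dep (W n) + 1

lemma dep_par (a : T) : dep (par a) = dep a - 1 := by cases a <;> simp [par, dep]

lemma dep_zero {a : T} (h : dep a = 0) : a = .root := by cases a <;> simp_all [dep]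

lemma dep_iter (k : ℕ) (a : T) : dep (par^[k] a) = dep a - k := by
  induction k with
  | zero => rfl
  | succ k ih => rw [iterate_succ_apply', dep_par, ih]; omega

def Le (u v : T) : Prop := ∃ k, par^[k] v = u

lemma Le.rfl {a : T} : Le a a := ⟨0, _root_.rfl⟩

lemma Le.trans {a b c : T} (h : Le a b) (h' : Le b c) : Le a c := by
  obtain ⟨k, rfl⟩ := h
  obtain ⟨l, rfl⟩ := h'
  exact ⟨k + l, iterate_add_apply _ _ _ _⟩

lemma le_par (a : T) : Le (par a) a := ⟨1, rfl⟩

lemma Le.cases {a b : T} (h : Le a b) : a = b ∨ Le a (par b) := by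
  obtain ⟨k, rfl⟩ := h
  cases k with
  | zero => exact Or.inl _root_.rfl
  | succ k => exact Or.inr ⟨k, _root_.rfl⟩

lemma Le.dep_le {a b : T} (h : Le a b) : dep a ≤ dep b := by
  obtain ⟨k, rfl⟩ := h
  rw [dep_iter]
  omega

lemma Le.eq_of_dep {a b : T} (h : Le a b) (h' : dep b ≤ dep a) : a = b := by
  obtain ⟨k, rfl⟩ := h
  rw [dep_iter] at h'
  cases k with
  | zero => rfl
  | succ k =>
    have : b = .root := dep_zero (by omega)
    subst this
    exact iterate_fixed _root_.rfl _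

lemma Le.total {a b c : T} (h : Le a c) (h' : Le b c) : Le a b ∨ Le b a := by
  obtain ⟨k, rfl⟩ := h
  obtain ⟨l, rfl⟩ := h'
  rcases le_total k l with h | h
  · obtain ⟨j, rfl⟩ := Nat.exists_eq_add_of_le h
    exact Or.inr ⟨j, by rw [add_comm, iterate_add_apply]⟩
  · obtain ⟨j, rfl⟩ := Nat.exists_eq_add_of_le h
    exact Or.inl ⟨j, by rw [add_comm, iterate_add_apply]⟩

lemma Le.of_dep {a b c : T} (h : Le a c) (h' : Le b c) (hd : dep a ≤ dep b) : Le a b := by
  rcases h.total h' with h1 | h1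
  · exact h1
  · rw [h1.eq_of_dep hd]
    exact Le.rfl

lemma root_le (a : T) : Le .root a := ⟨dep a, dep_zero (by rw [dep_iter]; omega)⟩

def Sub (a b : T) : Prop := (∃ c, b = .S a c) ∨ ∃ W e n k, b = .V W e n ∧ a = W k

lemma sub_wf : WellFounded Sub := by
  refine ⟨fun r => ?_⟩
  induction r with
  | root =>
    refine ⟨_, fun b hb => ?_⟩
    rcases hb with ⟨c, h⟩ | ⟨W, e, n, k, h, -⟩ <;> cases h
  | S a c ih =>
    refine ⟨_, fun b hb => ?_⟩
    rcases hb with ⟨c, h⟩ | ⟨W, e, n, k, h, -⟩ <;> cases h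
    exact ih
  | V W e n ih =>
    refine ⟨_, fun b hb => ?_⟩
    rcases hb with ⟨c, h⟩ | ⟨W, e, n, k, h, rfl⟩ <;> cases h
    exact ih k

lemma Le.sub {a b : T} (h : Le a b) : Relation.ReflTransGen Sub a b := by
  obtain ⟨k, rfl⟩ := h
  induction k with
  | zero => exact Relation.ReflTransGen.refl
  | succ k ih =>
    rw [iterate_succ_apply']
    refine Relation.ReflTransGen.trans ?_ ih
    cases par^[k] b with
    | root => exact Relation.ReflTransGen.refl
    | S a c => exact Relation.ReflTransGen.single (Or.inl ⟨c, _root_.rfl⟩)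
    | V W e n => exact Relation.ReflTransGen.single (Or.inr ⟨W, e, n, n, _root_.rfl, _root_.rfl⟩)

lemma not_both {W W' : ℕ → T} {e e' : ℕ → Bool} {n n' k k' : ℕ} (h : Le (.V W e n) (W' k'))
    (h' : Le (.V W' e' n') (W k)) : False := by
  have h1 : Relation.TransGen Sub (.V W e n) (.V W' e' n') :=
    Relation.TransGen.tail' h.sub (Or.inr ⟨_, _, _, k', rfl, rfl⟩)
  have h2 : Relation.TransGen Sub (.V W' e' n') (.V W e n) :=
    Relation.TransGen.tail' h'.sub (Or.inr ⟨_, _, _, k, rfl, rfl⟩)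
  exact sub_wf.transGen.irrefl.irrefl _ (h1.trans h2)

def res (z : ℕ → Bool) : ℕ → List Bool
  | 0 => []
  | n + 1 => z n :: res z n

def bit : T → Bool
  | .root => false
  | .S _ b => b
  | .V _ e n => e n

def IsCfg (C : List Bool → T) : Prop :=
  ∀ σ δ, ∃ c, par c = C σ ∧ dep c = dep (C σ) + 1 ∧ bit c = δ ∧ Le c (C (δ :: σ))

def X : Type := {x : (List Bool → T) × (List Bool → Bool) × Bool // IsCfg x.1}

lemma chain (x : X) (z : ℕ → Bool) {m n : ℕ} (h : m ≤ n) :
    Le (x.1.1 (res z m)) (x.1.1 (res z n)) := by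
  induction n, h using Nat.le_induction with
  | base => exact Le.rfl
  | succ n _ ih =>
    obtain ⟨c, h1, -, -, h2⟩ := x.2 (res z n) (z n)
    exact ih.trans ((h1 ▸ le_par c).trans h2)

def br (x : X) (z : ℕ → Bool) : Set T := {u | ∃ n, Le u (x.1.1 (res z n))}

lemma br_of_dep (x : X) (z : ℕ → Bool) {u v : T} (h : u ∈ br x z) (h' : v ∈ br x z)
    (e : dep u ≤ dep v) : Le u v := by
  obtain ⟨m, hm⟩ := h
  obtain ⟨n, hn⟩ := h'
  exact (hm.trans (chain x z (le_max_left m n))).of_dep (hn.trans (chain x z (le_max_right m n))) e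

lemma br_inj (x : X) : Injective (br x) := by
  intro z z' h
  have key : ∀ n, res z n = res z' n := by
    intro n
    induction n with
    | zero => rfl
    | succ n ih =>
      obtain ⟨c, -, h2, h3, h4⟩ := x.2 (res z n) (z n)
      obtain ⟨c', -, h2', h3', h4'⟩ := x.2 (res z' n) (z' n)
      have h5 : c ∈ br x z := ⟨n + 1, h4⟩
      have h6 : c' ∈ br x z' := ⟨n + 1, h4'⟩
      rw [← h] at h6
      rw [← ih] at h2'
      have := (br_of_dep x z h5 h6 (by omega)).eq_of_dep (by omega)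
      simp only [res, ih, ← h3, ← h3', this]
  funext n
  exact (List.cons.inj (key (n + 1))).1

lemma ex_sel : ∃ sel : X → ℕ → Bool, Injective fun x => br x (sel x) := by
  obtain ⟨f, hf, hf'⟩ := MP_42a2a8_gt.sdr (fun x : X => range (br x)) (fun x => by
    rw [Cardinal.mk_range_eq _ (br_inj x)]
    have h1 : #X ≤ #((List Bool → T) × (List Bool → Bool) × Bool) := Cardinal.mk_subtype_le _
    refine h1.trans ?_
    have h2 : #(List Bool → T) ≤ 𝔠 := by
      rw [← Cardinal.power_def]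
      refine (Cardinal.power_le_power_right card_T).trans ?_
      simp
    rw [Cardinal.mk_prod, Cardinal.lift_id, Cardinal.lift_id]
    refine (mul_le_mul_left h2 _).trans ?_
    simp)
  choose sel hsel using hf'
  exact ⟨sel, by simpa only [hsel] using hf⟩

noncomputable def sel : X → ℕ → Bool := ex_sel.choose

noncomputable def W (x : X) (n : ℕ) : T := x.1.1 (res (sel x) n)

noncomputable def E (x : X) (n : ℕ) : Bool := x.1.2.1 (res (sel x) n)

/-- the node `u` lies on the branch of the point `x` -/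
def On (u : T) (x : X) : Prop := ∃ n, Le u (W x n)

lemma W_mono (x : X) {m n : ℕ} (h : m ≤ n) : Le (W x m) (W x n) := chain x _ h

lemma W_dep (x : X) (n : ℕ) : n ≤ dep (W x n) := by
  induction n with
  | zero => exact Nat.zero_le _
  | succ n ih =>
    obtain ⟨c, -, h2, -, h4⟩ := x.2 (res (sel x) n) (sel x n)
    have h5 : dep c ≤ dep (W x (n + 1)) := h4.dep_le
    have h6 : dep c = dep (W x n) + 1 := h2
    omega

lemma On.le {u v : T} {x : X} (h : On v x) (h' : Le u v) : On u x :=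
  let ⟨n, hn⟩ := h
  ⟨n, h'.trans hn⟩

lemma On.of_dep {u v : T} {x : X} (h : On u x) (h' : On v x) (e : dep u ≤ dep v) : Le u v :=
  br_of_dep x _ h h' e

lemma On.total {u v : T} {x : X} (h : On u x) (h' : On v x) : Le u v ∨ Le v u :=
  (le_total (dep u) (dep v)).imp (h.of_dep h') (h'.of_dep h)

lemma on_W (x : X) (n : ℕ) : On (W x n) x := ⟨n, Le.rfl⟩

lemma ext_on {x y : X} (h : ∀ u, On u x → On u y) : x = y := by
  refine ex_sel.choose_spec (Subset.antisymm h fun u hu => ?_)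
  exact (on_W x (dep u)).le (On.of_dep hu (h _ (on_W x _)) (W_dep x _))

lemma ex_dep (x : X) (k : ℕ) : ∃ u, On u x ∧ dep u = k := by
  refine ⟨par^[dep (W x k) - k] (W x k), ⟨k, _, rfl⟩, ?_⟩
  have := W_dep x k
  rw [dep_iter]
  omega

lemma ex_child {u : T} {x : X} (h : On u x) : ∃ c, On c x ∧ par c = u ∧ dep c = dep u + 1 := by
  obtain ⟨c, h1, h2⟩ := ex_dep x (dep u + 1)
  refine ⟨c, h1, ?_, h2⟩
  have h3 : dep (par c) = dep u := by rw [dep_par]; omega
  exact ((h1.le (le_par c)).of_dep h h3.le).eq_of_dep h3.ge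

lemma ex_pt (u : T) : ∃ x, On u x :=
  ⟨⟨(fun σ => σ.foldr (fun δ d => .S d δ) u, fun _ => true, true),
    fun _ _ => ⟨_, rfl, rfl, rfl, Le.rfl⟩⟩, 0, Le.rfl⟩

lemma sep {u v : T} (h : ∀ x, On u x → On v x) : Le v u := by
  by_contra hn
  have key : ∀ δ, Le (.S u δ) v := by
    intro δ
    obtain ⟨x, hx⟩ := ex_pt (.S u δ)
    rcases hx.total (h x (hx.le (le_par _))) with h1 | h1
    · exact h1
    · rcases h1.cases with rfl | h2
      · exact Le.rfl
      · exact absurd h2 hn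
  have := ((key true).of_dep (key false) le_rfl).eq_of_dep le_rfl
  simp at this

def Act (x : X) : Prop := x.1.2.2 = true ∧ ∀ σ δ, Le (.S (x.1.1 σ) δ) (x.1.1 (δ :: σ))

noncomputable def nd (x : X) (n : ℕ) : T := .V (W x) (E x) n

lemma nd_inj {x y : X} {m n : ℕ} (h : nd x m = nd y n) : x = y ∧ m = n := by
  simp only [nd, T.V.injEq] at h
  exact ⟨ext_on fun u ⟨k, hk⟩ => ⟨k, h.1 ▸ hk⟩, h.2.2⟩

lemma le_nd {u : T} {x : X} {n : ℕ} (h : Le u (nd x n)) : u = nd x n ∨ Le u (W x n) := h.cases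

lemma W_le_nd (x : X) (n : ℕ) : Le (W x n) (nd x n) := le_par (nd x n)

lemma nd_both {x y : X} {m n : ℕ} (h : On (nd x m) y) (h' : On (nd y n) x) : False :=
  let ⟨_, h1⟩ := h
  let ⟨_, h2⟩ := h'
  not_both h1 h2

lemma nd_not_on (x : X) (n : ℕ) : ¬ On (nd x n) x := fun h => nd_both h h

lemma nd_nd {x y : X} {m n : ℕ} (h : On (nd x m) y) (h' : On (nd x n) y) : m = n := by
  rcases h.total h' with h1 | h1
  · rcases le_nd h1 with h2 | h2
    · exact (nd_inj h2).2
    · exact absurd ⟨n, h2⟩ (nd_not_on x m)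
  · rcases le_nd h1 with h2 | h2
    · exact (nd_inj h2).2.symm
    · exact absurd ⟨m, h2⟩ (nd_not_on x n)

def Pair (c : X → ℕ → Prop) (p w : T) : Prop := Le p w ∧ ∀ v, Le p v → v ≠ p → Le v w →
  ∃ x n, Act x ∧ v = nd x n ∧ c x n ∧ ∀ j < n, ¬ Le p (W x j)

def Ext (c : X → ℕ → Prop) (p w : T) (ε : Bool) (v : T) : Prop :=
  Pair c p v ∧ par v = w ∧ dep v = dep w + 1 ∧ bit v = ε

inductive Bad (c : X → ℕ → Prop) (p : T) : Ordinal.{0} → T → Prop
  | mk (α : Ordinal.{0}) (w : T) (ε : Bool) (f : T → Ordinal.{0}) :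
    (∀ v, Ext c p w ε v → f v < α) → (∀ v, Ext c p w ε v → Bad c p (f v) v) → Bad c p α w

lemma pair_self (c : X → ℕ → Prop) (p : T) : Pair c p p :=
  ⟨Le.rfl, fun _ h1 h2 h3 => absurd (h3.eq_of_dep h1.dep_le) h2⟩

lemma not_all_bad (c : X → ℕ → Prop) (hc : ∀ x, Act x → ∀ m, ∃ n, m ≤ n ∧ c x n) :
    ∃ p w, Pair c p w ∧ ¬ ∃ α, Bad c p α w := by
  by_contra hall
  push Not at hall
  have h1 : ∀ a : T, ∃ p w, ∃ ε : Bool, Pair c p w ∧ Le a w ∧ ¬ Le p a ∧
      ∀ v, Ext c p w ε v → False := by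
    intro a
    obtain ⟨α0, h0⟩ := hall (.S a true) (.S a true) (pair_self _ _)
    obtain ⟨α, ⟨p, w, h1, h2, h3, h4⟩, hmin⟩ := WellFounded.has_min (wellFounded_lt (α := Ordinal.{0}))
      {α | ∃ p w, Pair c p w ∧ Le a w ∧ ¬ Le p a ∧ Bad c p α w}
      ⟨α0, _, _, pair_self _ _, le_par (.S a true), fun h => by
        have := h.dep_le
        simp [dep] at this, h0⟩
    cases h4 with
    | mk _ _ ε f h5 h6 =>
      exact ⟨p, w, ε, h1, h2, h3, fun v hv => hmin (f v)
        ⟨p, v, hv.1, h2.trans (hv.2.1 ▸ le_par v), h3, h6 v hv⟩ (h5 v hv)⟩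
  choose p w ε h1 h2 h3 h4 using h1
  let a : List Bool → T := fun σ => σ.foldr (fun δ d => .S (w d) δ) .root
  let x : X := ⟨(fun σ => w (a σ), fun σ => ε (a σ), true),
    fun σ δ => ⟨.S (w (a σ)) δ, rfl, rfl, rfl, h2 _⟩⟩
  have hx : Act x := ⟨rfl, fun σ δ => h2 _⟩
  obtain ⟨n, hn, hcn⟩ := hc x hx 1
  obtain ⟨n, rfl⟩ := Nat.exists_eq_add_of_le' hn
  refine h4 (a (res (sel x) (n + 1))) (nd x (n + 1)) ⟨⟨(h1 _).1.trans (W_le_nd x (n + 1)),
    fun v h5 h6 h7 => ?_⟩, rfl, rfl, rfl⟩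
  rcases le_nd h7 with rfl | h7
  · refine ⟨x, n + 1, hx, rfl, hcn, fun j hj h => h3 _ (h.trans ?_)⟩
    exact (W_mono x (Nat.lt_succ_iff.1 hj)).trans (le_par (.S (W x n) (sel x n)))
  · exact (h1 _).2 v h5 h6 h7

lemma thin (c : X → ℕ → Prop) (hc : ∀ x, Act x → ∀ m, ∃ n, m ≤ n ∧ c x n) :
    ∃ z p, ¬ Act z ∧ On p z ∧ ∀ v, Le p v → v ≠ p → On v z →
      ∃ x n, Act x ∧ v = nd x n ∧ c x n ∧ ∀ j < n, ¬ Le p (W x j) := by
  classical
  obtain ⟨p, w, h1, h2⟩ := not_all_bad c hc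
  have key : ∀ w ε, ∃ v, (¬ ∃ α, Bad c p α w) → Ext c p w ε v ∧ ¬ ∃ α, Bad c p α v := by
    intro w ε
    by_contra h
    push Not at h
    have h3 : ∀ v, ∃ α, Ext c p w ε v → Bad c p α v := by
      intro v
      by_cases hv : Ext c p w ε v
      · obtain ⟨α, hα⟩ := (h v).2 hv
        exact ⟨α, fun _ => hα⟩
      · exact ⟨0, fun h => absurd h hv⟩
    choose f hf using h3
    exact (h w).1 (⨆ v, f v + 1) ⟨_, w, ε, f, fun v _ => Ordinal.lt_iSup_add_one f v, hf⟩
  choose nx hnx using key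
  let C : List Bool → T := fun σ => σ.foldr (fun δ d => nx d δ) w
  have hC : ∀ σ, Pair c p (C σ) ∧ ¬ ∃ α, Bad c p α (C σ) := by
    intro σ
    induction σ with
    | nil => exact ⟨h1, h2⟩
    | cons δ σ ih => exact ⟨(hnx _ δ ih.2).1.1, (hnx _ δ ih.2).2⟩
  have hcfg : IsCfg C := by
    intro σ δ
    obtain ⟨-, h3, h4, h5⟩ := (hnx _ δ (hC σ).2).1
    exact ⟨_, h3, h4, h5, Le.rfl⟩
  refine ⟨⟨(C, fun _ => true, false), hcfg⟩, p, fun h => by simpa using h.1,
    ⟨0, h1.1⟩, fun v h3 h4 h5 => ?_⟩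
  obtain ⟨n, hn⟩ := h5
  exact (hC _).1.2 v h3 h4 hn

end Pool.Agent.H.MP_87f021_gt
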