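import Mathlib
import Pool.Agent.H.MP_87f021_gt.Tree

set_option autoImplicit false

namespace Pool.Agent.H.MP_87f021_gt

open Set Function TopologicalSpace Topology

def Top (a t : T) : Prop := t = a ∨ ∃ x n m, Act x ∧ a = nd x n ∧ n ≤ m ∧ t = nd x m

def Bs (a : T) : Set X := {y | (∃ t, Top a t ∧ On t y) ∨ ∃ n, Act y ∧ a = nd y n}

def I (u : T) : Set X := {y | On u y}

def Po (a c : T) : Prop := (∀ t, Top c t → ∃ s, Top a s ∧ Le s t) ∧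
  ∀ y n, Act y → c = nd y n → y ∈ Bs a

lemma top_self (a : T) : Top a a := Or.inl rfl

lemma top_nd {x : X} (hx : Act x) {n m : ℕ} (h : n ≤ m) : Top (nd x n) (nd x m) :=
  Or.inr ⟨x, n, m, hx, rfl, h, rfl⟩

lemma top_nd_left {x : X} {n : ℕ} {t : T} (h : Top (nd x n) t) : ∃ m, n ≤ m ∧ t = nd x m := by
  rcases h with rfl | ⟨y, k, m, -, h1, h2, rfl⟩
  · exact ⟨n, le_rfl, rfl⟩
  · obtain ⟨rfl, rfl⟩ := nd_inj h1
    exact ⟨m, h2, rfl⟩

lemma top_nd_right {x : X} {n : ℕ} {a : T} (h : Top a (nd x n)) : ∃ m, m ≤ n ∧ a = nd x m := by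
  rcases h with rfl | ⟨y, k, m, -, rfl, h2, h3⟩
  · exact ⟨n, le_rfl, rfl⟩
  · obtain ⟨rfl, rfl⟩ := nd_inj h3
    exact ⟨k, h2, rfl⟩

lemma top_cases {b t s : T} (h : Top b t) (h' : Top b s) :
    t = s ∨ ∃ x i m k, b = nd x i ∧ t = nd x m ∧ s = nd x k := by
  rcases h with rfl | ⟨y, k, m, -, rfl, -, rfl⟩
  · rcases h' with rfl | ⟨y, k, m, -, rfl, -, rfl⟩
    · exact Or.inl rfl
    · exact Or.inr ⟨y, k, k, m, rfl, rfl, rfl⟩
  · obtain ⟨j, -, rfl⟩ := top_nd_left h'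
    exact Or.inr ⟨y, k, m, j, rfl, rfl, rfl⟩

lemma I_sub {a t : T} (h : Top a t) : I t ⊆ Bs a := fun _ hy => Or.inl ⟨t, h, hy⟩

lemma mem_nd {x : X} (hx : Act x) (n : ℕ) : x ∈ Bs (nd x n) := Or.inr ⟨n, hx, rfl⟩

lemma mem_nd_cases {x y : X} {n : ℕ} (h : y ∈ Bs (nd x n)) : y = x ∨ ∃ m, n ≤ m ∧ On (nd x m) y := by
  rcases h with ⟨t, h1, h2⟩ | ⟨k, -, h⟩
  · obtain ⟨m, h3, rfl⟩ := top_nd_left h1
    exact Or.inr ⟨m, h3, h2⟩
  · exact Or.inl (nd_inj h).1.symm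

lemma Po.sub {a c : T} (h : Po a c) : Bs c ⊆ Bs a := by
  rintro y (⟨t, h1, h2⟩ | ⟨n, h1, h2⟩)
  · obtain ⟨s, h3, h4⟩ := h.1 t h1
    exact Or.inl ⟨s, h3, h2.le h4⟩
  · exact h.2 y n h1 h2

lemma le_top {u c t : T} (h : Le u (par c)) (h' : Top c t) : Le u t := by
  rcases h' with rfl | ⟨x, n, m, -, rfl, h1, rfl⟩
  · exact h.trans (le_par _)
  · exact h.trans ((W_mono x h1).trans (W_le_nd x m))

lemma Bs_sub_I {u c : T} (h : Le u (par c)) : Bs c ⊆ I u := by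
  rintro y (⟨t, h1, h2⟩ | ⟨n, -, rfl⟩)
  · exact h2.le (le_top h h1)
  · exact ⟨n, h⟩

lemma po_par {a s c : T} (h : Top a s) (h' : Le s (par c)) : Po a c := by
  refine ⟨fun t ht => ⟨s, h, le_top h' ht⟩, ?_⟩
  rintro y n - rfl
  exact Or.inl ⟨s, h, n, h'⟩

lemma po_nd {x : X} (hx : Act x) {n m : ℕ} (h : n ≤ m) : Po (nd x n) (nd x m) := by
  refine ⟨fun t ht => ?_, fun y k _ hk => ?_⟩
  · obtain ⟨j, h1, rfl⟩ := top_nd_left ht
    exact ⟨_, top_nd hx (h.trans h1), Le.rfl⟩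
  · obtain ⟨rfl, rfl⟩ := nd_inj hk
    exact mem_nd hx n

def Loc (y : X) (N : ℕ) (c : T) : Prop :=
  (Act y → ∃ n, N ≤ n ∧ c = nd y n) ∧ (¬ Act y → On c y ∧ N ≤ dep c)

lemma ex_loc (y : X) (N : ℕ) : ∃ c, Loc y N c := by
  by_cases h : Act y
  · exact ⟨_, fun _ => ⟨N, le_rfl, rfl⟩, fun h' => absurd h h'⟩
  · obtain ⟨u, h1, h2⟩ := ex_dep y N
    exact ⟨u, fun h' => absurd h' h, fun _ => ⟨h1, h2.ge⟩⟩

lemma Loc.mono {y : X} {N M : ℕ} {c : T} (h : Loc y N c) (hM : M ≤ N) : Loc y M c :=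
  ⟨fun h' => let ⟨n, h1, h2⟩ := h.1 h'; ⟨n, hM.trans h1, h2⟩,
    fun h' => ⟨(h.2 h').1, hM.trans (h.2 h').2⟩⟩

lemma Loc.mem {y : X} {N : ℕ} {c : T} (h : Loc y N c) : y ∈ Bs c := by
  by_cases hy : Act y
  · obtain ⟨n, -, rfl⟩ := h.1 hy
    exact mem_nd hy n
  · exact I_sub (top_self c) (h.2 hy).1

lemma loc_par {y : X} {u : T} (h : On u y) : ∃ N, ∀ c, Loc y N c → Le u (par c) := by
  obtain ⟨k, hk⟩ := id h
  refine ⟨k + dep u + 1, fun c hc => ?_⟩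
  by_cases hy : Act y
  · obtain ⟨n, h1, rfl⟩ := hc.1 hy
    exact hk.trans (W_mono y (by omega))
  · have := (hc.2 hy).2
    exact h.of_dep ((hc.2 hy).1.le (le_par c)) (by rw [dep_par]; omega)

lemma small {y : X} {a : T} (h : y ∈ Bs a) : ∃ N, ∀ c, Loc y N c → Po a c := by
  rcases h with ⟨t, h1, h2⟩ | ⟨n, h1, rfl⟩
  · obtain ⟨N, hN⟩ := loc_par h2
    exact ⟨N, fun c hc => po_par h1 (hN c hc)⟩
  · refine ⟨n, fun c hc => ?_⟩
    obtain ⟨m, h2, rfl⟩ := hc.1 h1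
    exact po_nd h1 h2

lemma common {y : X} {a b : T} (ha : y ∈ Bs a) (hb : y ∈ Bs b) :
    ∃ c, y ∈ Bs c ∧ Po a c ∧ Po b c := by
  obtain ⟨N, hN⟩ := small ha
  obtain ⟨M, hM⟩ := small hb
  obtain ⟨c, hc⟩ := ex_loc y (max N M)
  exact ⟨c, hc.mem, hN c (hc.mono (le_max_left _ _)), hM c (hc.mono (le_max_right _ _))⟩

instance : TopologicalSpace X := generateFrom (range Bs)

lemma basis : IsTopologicalBasis (range Bs) := by
  refine ⟨?_, ?_, rfl⟩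
  · rintro _ ⟨a, rfl⟩ _ ⟨b, rfl⟩ y ⟨ha, hb⟩
    obtain ⟨c, h1, h2, h3⟩ := common ha hb
    exact ⟨_, ⟨c, rfl⟩, h1, subset_inter h2.sub h3.sub⟩
  · exact eq_univ_of_forall fun y => let ⟨c, hc⟩ := ex_loc y 0; ⟨_, ⟨c, rfl⟩, hc.mem⟩

lemma Bs_open (a : T) : IsOpen (Bs a) := basis.isOpen ⟨a, rfl⟩

lemma I_open (u : T) : IsOpen (I u) := by
  rw [basis.isOpen_iff]
  intro y hy
  obtain ⟨N, hN⟩ := loc_par hy
  obtain ⟨c, hc⟩ := ex_loc y N
  exact ⟨_, ⟨c, rfl⟩, hc.mem, Bs_sub_I (hN c hc)⟩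

lemma out {y : X} {a : T} (h : y ∉ Bs a) : ∃ v, On v y ∧ (∀ x n, Act x → a = nd x n → ¬ On v x) ∧
    ∃ F : Set T, F.Finite ∧ (∀ f ∈ F, ¬ Le f v ∧ ¬ Le v f) ∧ ∀ t, Top a t → ∃ f ∈ F, Le f t := by
  by_cases ha : ∃ x n, Act x ∧ a = nd x n
  · obtain ⟨x, n, hx, rfl⟩ := ha
    have hyx : y ≠ x := fun e => h (e ▸ mem_nd hx n)
    obtain ⟨v, h1, h2⟩ : ∃ v, On v y ∧ ¬ On v x := by
      by_contra hc
      push Not at hc
      exact hyx (ext_on hc)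
    refine ⟨v, h1, fun x' n' _ e => (nd_inj e).1 ▸ h2,
      insert (W x (dep v + 1)) (nd x '' Icc n (dep v + 1)),
      ((finite_Icc _ _).image _).insert _, ?_, fun t ht => ?_⟩
    · rintro f (rfl | ⟨m, hm, rfl⟩)
      · refine ⟨fun h3 => ?_, fun h3 => h2 ⟨_, h3⟩⟩
        have := h3.dep_le
        have := W_dep x (dep v + 1)
        omega
      · have h3 : ¬ Le (nd x m) v := fun h3 => h (I_sub (top_nd hx hm.1) (h1.le h3))
        refine ⟨h3, fun h4 => ?_⟩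
        rcases le_nd h4 with rfl | h5
        · exact h3 Le.rfl
        · exact h2 ⟨m, h5⟩
    · obtain ⟨m, h3, rfl⟩ := top_nd_left ht
      rcases le_total m (dep v + 1) with h4 | h4
      · exact ⟨_, Or.inr ⟨m, ⟨h3, h4⟩, rfl⟩, Le.rfl⟩
      · exact ⟨_, Or.inl rfl, (W_mono x h4).trans (W_le_nd x m)⟩
  · obtain ⟨v, h1, h2⟩ := ex_dep y (dep a)
    have h3 : ¬ Le a v := fun h3 => h (I_sub (top_self a) (h1.le h3))
    refine ⟨v, h1, fun x n hx e => absurd ⟨x, n, hx, e⟩ ha, {a}, finite_singleton _, ?_, ?_⟩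
    · rintro f rfl
      exact ⟨h3, fun h4 => h3 (h4.eq_of_dep h2.ge ▸ Le.rfl)⟩
    · rintro t (rfl | ⟨x, n, m, hx, e, -⟩)
      · exact ⟨_, rfl, Le.rfl⟩
      · exact absurd ⟨x, n, hx, e⟩ ha

lemma out' {y : X} {a : T} (h : y ∉ Bs a) : ∃ v, On v y ∧ I v ⊆ (Bs a)ᶜ := by
  obtain ⟨v, h1, h2, F, -, h3, h4⟩ := out h
  refine ⟨v, h1, ?_⟩
  rintro w hw (⟨t, h5, h6⟩ | ⟨n, h5, h6⟩)
  · obtain ⟨f, hf, h7⟩ := h4 t h5
    exact ((h6.le h7).total hw).elim (h3 f hf).1 (h3 f hf).2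
  · exact h2 w n h5 h6 hw

lemma Bs_closed (a : T) : IsClosed (Bs a) := by
  rw [← isOpen_compl_iff, isOpen_iff_forall_mem_open]
  intro y hy
  obtain ⟨v, h1, h2⟩ := out' hy
  exact ⟨I v, h2, I_open v, h1⟩

lemma ex_sep {x y : X} (h : x ≠ y) : ∃ u v, On u x ∧ On v y ∧ ¬ Le u v ∧ ¬ Le v u := by
  obtain ⟨u, h1, h2⟩ : ∃ v, On v x ∧ ¬ On v y := by
    by_contra hc
    push Not at hc
    exact h (ext_on hc)
  obtain ⟨v, h3, h4⟩ := ex_dep y (dep u)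
  have h5 : ¬ Le u v := fun h5 => h2 (h3.le h5)
  exact ⟨u, v, h1, h3, h5, fun h6 => h5 (h6.eq_of_dep h4.ge ▸ Le.rfl)⟩

instance : T2Space X := ⟨fun x y h => by
  obtain ⟨u, v, h1, h2, h3, h4⟩ := ex_sep h
  exact ⟨I u, I v, I_open u, I_open v, h1, h2,
    Set.disjoint_left.2 fun w h5 h6 => (On.total h5 h6).elim h3 h4⟩⟩

lemma two_pts (a : T) (x : X) : ∃ y, On a y ∧ y ≠ x := by
  obtain ⟨y, hy⟩ := ex_pt (.S a true)
  obtain ⟨y', hy'⟩ := ex_pt (.S a false)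
  by_cases h : y = x
  · refine ⟨y', hy'.le (le_par _), fun h' => ?_⟩
    rw [h', ← h] at hy'
    simpa using (hy.of_dep hy' le_rfl).eq_of_dep le_rfl
  · exact ⟨y, hy.le (le_par _), h⟩

lemma noiso (x : X) : ¬ IsOpen ({x} : Set X) := by
  intro h
  obtain ⟨_, ⟨a, rfl⟩, -, h2⟩ := basis.exists_subset_of_mem_open (mem_singleton x) h
  obtain ⟨y, h3, h4⟩ := two_pts a x
  exact h4 (h2 (I_sub (top_self a) h3))

lemma inter_same {x : X} (hx : Act x) (n m : ℕ) : ∃ j, Bs j = Bs (nd x n) ∩ Bs (nd x m) := by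
  rcases le_total n m with h | h
  · exact ⟨_, (inter_eq_right.2 (po_nd hx h).sub).symm⟩
  · exact ⟨_, (inter_eq_left.2 (po_nd hx h).sub).symm⟩

lemma inter_catch {x : X} (hx : Act x) (n : ℕ) {b s : T} (hs : Top b s) (hsx : On s x) :
    ∃ j, Bs j = Bs b ∩ Bs (nd x n) := by
  classical
  have hb : ∀ i, b ≠ nd x i := by
    rintro i rfl
    obtain ⟨m, -, rfl⟩ := top_nd_left hs
    exact nd_not_on x m hsx
  have hex : ∃ k, ∃ s, Top b s ∧ Le s (W x k) := let ⟨k, hk⟩ := hsx; ⟨k, s, hs, hk⟩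
  obtain ⟨s0, h1, h2⟩ := Nat.find_spec hex
  refine ⟨nd x (max n (Nat.find hex)), Subset.antisymm (subset_inter
    (po_par h1 (h2.trans (W_mono x (le_max_right _ _)))).sub (po_nd hx (le_max_left _ _)).sub) ?_⟩
  rintro y ⟨h3, h4⟩
  rcases mem_nd_cases h4 with rfl | ⟨j, h5, h6⟩
  · exact mem_nd hx _
  refine I_sub (top_nd hx (max_le h5 ?_)) h6
  by_contra hj
  have hmin := Nat.find_min hex (not_le.1 hj)
  rcases h3 with ⟨t, h7, h8⟩ | ⟨i, -, rfl⟩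
  · rcases h8.total h6 with h9 | h9
    · rcases le_nd h9 with rfl | h9
      · obtain ⟨m, -, e⟩ := top_nd_right h7
        exact hb m e
      · exact hmin ⟨t, h7, h9⟩
    · rcases top_cases h7 hs with rfl | ⟨x', i, m, k, rfl, rfl, rfl⟩
      · exact nd_not_on x j (hsx.le h9)
      · rcases le_nd h9 with e | h9
        · exact hb i (by rw [(nd_inj e).1])
        · exact nd_both ⟨m, h9⟩ hsx
  · obtain ⟨m, -, rfl⟩ := top_nd_left hs
    exact nd_both h6 hsx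

lemma inter_top {a b s t : T} (hs : Top a s) (ht : Top b t) (h : Le s t) :
    ∃ j, Bs j = Bs a ∩ Bs b := by
  by_cases hb : ∃ x n, Act x ∧ b = nd x n
  · obtain ⟨x, n, hx, rfl⟩ := hb
    obtain ⟨m, -, rfl⟩ := top_nd_left ht
    rcases le_nd h with rfl | h
    · obtain ⟨k, -, rfl⟩ := top_nd_right hs
      exact inter_same hx k n
    · exact inter_catch hx n hs ⟨m, h⟩
  · have h1 : ∀ t, Top b t → t = b := by
      rintro t (rfl | ⟨x, n, m, hx, e, -⟩)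
      · rfl
      · exact absurd ⟨x, n, hx, e⟩ hb
    refine ⟨b, (inter_eq_right.2 ?_).symm⟩
    rintro y (⟨t', h2, h3⟩ | ⟨n, h2, h3⟩)
    · rw [h1 _ h2, ← h1 _ ht] at h3
      exact I_sub hs (h3.le h)
    · exact absurd ⟨y, n, h2, h3⟩ hb

lemma inter {a b : T} {y : X} (ha : y ∈ Bs a) (hb : y ∈ Bs b) : ∃ j, Bs j = Bs a ∩ Bs b := by
  rcases ha with ⟨s, h1, h2⟩ | ⟨n, h1, rfl⟩ <;> rcases hb with ⟨t, h3, h4⟩ | ⟨m, h3, rfl⟩
  · rcases h2.total h4 with h | h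
    · exact inter_top h1 h3 h
    · rw [inter_comm]
      exact inter_top h3 h1 h
  · exact inter_catch h3 m h1 h2
  · rw [inter_comm]
    exact inter_catch h1 n h3 h4
  · exact inter_same h1 n m

lemma at_act {x : X} (hx : Act x) {m : ℕ} {a : T} (h : x ∈ Bs a) (h' : Bs a ⊆ Bs (nd x m)) :
    ∃ n, m ≤ n ∧ a = nd x n := by
  rcases h with ⟨t, h1, k, h2⟩ | ⟨n, -, rfl⟩
  · exfalso
    obtain ⟨y, hy⟩ := ex_pt (.S (W x k) (!sel x k))
    have h3 : On (.S (W x k) (sel x k)) x := ⟨k + 1, hx.2 _ _⟩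
    have h4 : ¬ On (.S (W x k) (!sel x k)) x := fun h4 => by
      simpa using (h3.of_dep h4 le_rfl).eq_of_dep le_rfl
    rcases mem_nd_cases (h' (I_sub h1 (hy.le (h2.trans (le_par (.S (W x k) _)))))) with
      rfl | ⟨j, -, h5⟩
    · exact h4 hy
    · rcases hy.total h5 with h6 | h6
      · rcases le_nd h6 with e | h6
        · cases e
        · exact h4 ⟨j, h6⟩
      · rcases h6.cases with e | h6
        · cases e
        · exact nd_not_on x j ⟨k, h6⟩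
  · obtain ⟨y, h1, h2⟩ := two_pts (nd x n) x
    rcases mem_nd_cases (h' (I_sub (top_self _) h1)) with e | ⟨j, h3, h4⟩
    · exact absurd e h2
    · exact ⟨n, nd_nd h4 h1 ▸ h3, rfl⟩

/-- every colouring of the nodes is constant on a local base inside some basic set -/
theorem ramsey (c : T → Prop) : ∃ y b, y ∈ Bs b ∧ (∃ x n, Act x ∧ b = nd x n) ∧
    (((∃ n, b = nd y n) ∧ ∀ a, y ∈ Bs a → Bs a ⊆ Bs b → ¬ c a) ∨
      (¬ Act y ∧ (∀ v, Le (par b) v → On v y → ∃ x n, Act x ∧ v = nd x n) ∧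
        ∀ a, y ∈ Bs a → Bs a ⊆ Bs b → c a)) := by
  by_cases hc : ∀ x, Act x → ∀ m, ∃ n, m ≤ n ∧ c (nd x n)
  · obtain ⟨z, p, h1, h2, h3⟩ := thin (fun x n => c (nd x n)) hc
    obtain ⟨d, h4, h5, h6⟩ := ex_child h2
    obtain ⟨b, h7, h8, h9⟩ := ex_child h4
    have hpd : Le p d := h5 ▸ le_par d
    have hdb : Le d b := h8 ▸ le_par b
    have hd : ∀ v, Le d v → On v z →
        ∃ x n, Act x ∧ v = nd x n ∧ c (nd x n) ∧ ∀ j < n, ¬ Le p (W x j) := by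
      intro v h10 h11
      refine h3 v (hpd.trans h10) (fun e => ?_) h11
      have := h10.dep_le
      rw [e] at this
      omega
    refine ⟨z, b, I_sub (top_self b) h7, ?_, Or.inr ⟨h1, fun v h10 h11 => ?_, fun a h10 h11 => ?_⟩⟩
    · obtain ⟨x, n, h10, h11, -⟩ := hd b hdb h7
      exact ⟨x, n, h10, h11⟩
    · obtain ⟨x, n, h12, h13, -⟩ := hd v (h8 ▸ h10) h11
      exact ⟨x, n, h12, h13⟩
    · have h12 : Bs a ⊆ I d := h11.trans (Bs_sub_I (h8 ▸ Le.rfl))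
      rcases h10 with ⟨t, h13, h14⟩ | ⟨n, h13, -⟩
      · obtain ⟨x, n, -, rfl, h15, h16⟩ := hd t (sep fun y hy => h12 (I_sub h13 hy)) h14
        obtain ⟨m, h17, rfl⟩ := top_nd_right h13
        rcases h17.eq_or_lt with rfl | h17
        · exact h15
        · have h18 : Le d (nd x m) := sep fun y hy => h12 (I_sub (top_self _) hy)
          refine absurd ?_ (h16 m h17)
          rcases le_nd h18 with rfl | h18
          · exact h5 ▸ Le.rfl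
          · exact hpd.trans h18
      · exact absurd h13 h1
  · push Not at hc
    obtain ⟨x, hx, m, hm⟩ := hc
    refine ⟨x, nd x m, mem_nd hx m, ⟨x, m, hx, rfl⟩, Or.inl ⟨⟨m, rfl⟩, fun a h1 h2 => ?_⟩⟩
    obtain ⟨n, h3, rfl⟩ := at_act hx h1 h2
    exact hm n h3

end Pool.Agent.H.MP_87f021_gt
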