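import Mathlib
import Pool.Agent.H.MP_87f021_gt.Space

set_option autoImplicit false

namespace Pool.Agent.H.MP_87f021_gt

open Set Function TopologicalSpace Topology

instance : RegularSpace X :=
  RegularSpace.of_hasBasis (fun _ => basis.nhds_hasBasis) (by
    rintro _ _ ⟨⟨a, rfl⟩, -⟩
    exact Bs_closed a)

instance : T3Space X := {}

lemma not_res (B0 B1 : Set (Set X)) (h : B0 ∪ B1 ⊆ insert ∅ (range Bs)) (hd : Disjoint B0 B1) :
    ¬ (IsTopologicalBasis B0 ∧ IsTopologicalBasis B1) := by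
  rintro ⟨h0, h1⟩
  obtain ⟨y, b, hy, -, ⟨-, h2⟩ | ⟨-, -, h2⟩⟩ := ramsey fun a => Bs a ∈ B0
  · obtain ⟨V, hV, h3, h4⟩ := h0.exists_subset_of_mem_open hy (Bs_open b)
    rcases h (Or.inl hV) with rfl | ⟨a, rfl⟩
    · exact h3
    · exact h2 a h3 h4 hV
  · obtain ⟨V, hV, h3, h4⟩ := h1.exists_subset_of_mem_open hy (Bs_open b)
    rcases h (Or.inr hV) with rfl | ⟨a, rfl⟩
    · exact h3
    · exact Set.disjoint_left.1 hd (h2 a h3 h4) hV

lemma para : ParacompactSpace X := by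
  classical
  refine ⟨fun α s ho hc => ?_⟩
  let Good : T → Prop := fun u => ∃ a, I u ⊆ s a
  let F : X → Prop := fun y => ∀ u, On u y → ¬ Good u
  have hF : ∀ y, ∃ n, F y → Act y ∧ ∃ a, Bs (nd y n) ⊆ s a := by
    intro y
    obtain ⟨a, ha⟩ := mem_iUnion.1 (hc ▸ mem_univ y)
    obtain ⟨_, ⟨b, rfl⟩, h1, h2⟩ := basis.exists_subset_of_mem_open ha (ho a)
    rcases h1 with ⟨t, h3, h4⟩ | ⟨n, h3, rfl⟩
    · exact ⟨0, fun h => absurd ⟨a, (I_sub h3).trans h2⟩ (h t h4)⟩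
    · exact ⟨n, fun _ => ⟨h3, a, h2⟩⟩
  choose n hn using hF
  have hG : ∀ x, F x → ∀ m, n x ≤ m → Good (nd x m) := by
    intro x hx m hm
    obtain ⟨h1, a, h2⟩ := hn x hx
    exact ⟨a, (I_sub (top_nd h1 hm)).trans h2⟩
  let P : Set (Set X) := {U | (∃ x, F x ∧ U = Bs (nd x (n x))) ∨ ∃ u, Good u ∧
    (∀ v, Le v u → Good v → v = u) ∧ (∀ x, F x → ∀ m, n x ≤ m → u ≠ nd x m) ∧ U = I u}
  have h12 : ∀ x u y, F x → Good u → (∀ v, Le v u → Good v → v = u) →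
      (∀ x, F x → ∀ m, n x ≤ m → u ≠ nd x m) → y ∈ Bs (nd x (n x)) → y ∈ I u → False := by
    intro x u y hx h1 h2 h3 h4 h5
    rcases mem_nd_cases h4 with rfl | ⟨m, h6, h7⟩
    · exact hx u h5 h1
    · rcases h7.total h5 with h8 | h8
      · exact h3 x hx m h6 (h2 _ h8 (hG x hx m h6)).symm
      · rcases le_nd h8 with e | h8
        · exact h3 x hx m h6 e
        · exact hx u ⟨m, h8⟩ h1
  have h11 : ∀ x x' m m', F x → F x' → n x ≤ m → Le (nd x m) (nd x' m') → x = x' := by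
    intro x x' m m' hx hx' hm h
    rcases le_nd h with e | h
    · exact (nd_inj e).1
    · exact absurd (hG x hx m hm) (hx' _ ⟨m', h⟩)
  have hP : ∀ U ∈ P, ∀ U' ∈ P, ∀ y ∈ U, y ∈ U' → U = U' := by
    rintro _ (⟨x, hx, rfl⟩ | ⟨u, h1, h2, h3, rfl⟩) _ (⟨x', hx', rfl⟩ | ⟨u', h1', h2', h3', rfl⟩)
      y hy hy'
    · have : x = x' := by
        rcases mem_nd_cases hy with rfl | ⟨m, h1, h2⟩ <;>
          rcases mem_nd_cases hy' with e | ⟨m', h3, h4⟩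
        · exact e
        · exact absurd (hG x' hx' m' h3) (hx _ h4)
        · subst e
          exact absurd (hG x hx m h1) (hx' _ h2)
        · rcases h2.total h4 with h | h
          · exact h11 _ _ _ _ hx hx' h1 h
          · exact (h11 _ _ _ _ hx' hx h3 h).symm
      rw [this]
    · exact (h12 x u' y hx h1' h2' h3' hy hy').elim
    · exact (h12 x' u y hx' h1 h2 h3 hy' hy).elim
    · rcases On.total hy hy' with h | h
      · rw [h2' u h h1]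
      · rw [h2 u' h h1']
  have hPo : ∀ U ∈ P, IsOpen U := by
    rintro _ (⟨x, -, rfl⟩ | ⟨u, -, -, -, rfl⟩)
    · exact Bs_open _
    · exact I_open _
  have hPc : ∀ y, ∃ U ∈ P, y ∈ U := by
    intro y
    by_cases hy : F y
    · exact ⟨_, Or.inl ⟨y, hy, rfl⟩, mem_nd (hn y hy).1 _⟩
    · have hex : ∃ k, ∃ u, On u y ∧ Good u ∧ dep u = k := by
        simp only [F, not_forall, not_not] at hy
        obtain ⟨u, h1, h2⟩ := hy
        exact ⟨_, u, h1, h2, rfl⟩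
      obtain ⟨u, h1, h2, h3⟩ := Nat.find_spec hex
      by_cases h4 : ∃ x m, F x ∧ n x ≤ m ∧ u = nd x m
      · obtain ⟨x, m, h5, h6, rfl⟩ := h4
        exact ⟨_, Or.inl ⟨x, h5, rfl⟩, I_sub (top_nd (hn x h5).1 h6) h1⟩
      · refine ⟨_, Or.inr ⟨u, h2, fun v h5 h6 => h5.eq_of_dep ?_,
          fun x h5 m h6 e => h4 ⟨x, m, h5, h6, e⟩, rfl⟩, h1⟩
        rw [h3]
        exact Nat.find_min' hex ⟨v, h1.le h5, h6, rfl⟩
  refine ⟨P, fun U => U.1, fun U => hPo _ U.2, eq_univ_of_forall fun y => ?_, fun y => ?_, ?_⟩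
  · obtain ⟨U, h1, h2⟩ := hPc y
    exact mem_iUnion.2 ⟨⟨U, h1⟩, h2⟩
  · obtain ⟨U, h1, h2⟩ := hPc y
    refine ⟨U, (hPo U h1).mem_nhds h2, (finite_singleton (⟨U, h1⟩ : P)).subset ?_⟩
    rintro U' ⟨w, h3, h4⟩
    exact Subtype.ext (hP _ U'.2 _ h1 w h3 h4)
  · rintro ⟨_, ⟨x, hx, rfl⟩ | ⟨u, h1, -, -, rfl⟩⟩
    · exact (hn x hx).2
    · exact h1

end Pool.Agent.H.MP_87f021_gt
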