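import Mathlib
import Pool.Agent.H.MP_87f021_gt.Para

set_option autoImplicit false

namespace Pool.Agent.H.MP_87f021_gt

open Set Function TopologicalSpace Topology
open Cardinal hiding univ

lemma ex_code : ∃ c : T → ℕ → Bool, Injective c := by
  have : #T ≤ #(ℕ → Bool) := card_T.trans (by simp)
  obtain ⟨f⟩ := (Cardinal.le_def _ _).1 this
  exact ⟨f, f.injective⟩

noncomputable def code : T → ℕ → Bool := ex_code.choose

abbrev Om : Type := Σ n : ℕ, Fin n → Fin n → Bool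

def J (u : T) : Set Om :=
  {k | dep u < k.1 ∧ ∀ v, Le v u → ∀ (h : dep v < k.1) (j : Fin k.1), k.2 ⟨dep v, h⟩ j = code v j}

lemma J_mono {u v : T} (h : Le u v) : J v ⊆ J u :=
  fun _ hk => ⟨h.dep_le.trans_lt hk.1, fun w hw => hk.2 w (hw.trans h)⟩

lemma J_ne (u : T) : (J u).Nonempty := by
  refine ⟨⟨dep u + 1, fun i j => code (par^[dep u - i] u) j⟩, Nat.lt_succ_self _,
    fun v hv h j => ?_⟩
  have h1 : Le (par^[dep u - dep v] u) u := ⟨_, rfl⟩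
  have h2 : dep (par^[dep u - dep v] u) = dep v := by
    have := hv.dep_le
    rw [dep_iter]
    omega
  have h3 := (h1.of_dep hv h2.le).eq_of_dep h2.ge
  simp only [h3]

lemma J_bdd {u v : T} (h : ¬ Le u v) (h' : ¬ Le v u) : ∃ N, ∀ k ∈ J u, k ∈ J v → k.1 ≤ N := by
  wlog hd : dep u ≤ dep v generalizing u v
  · obtain ⟨N, hN⟩ := this h' h (not_le.1 hd).le
    exact ⟨N, fun k h1 h2 => hN k h2 h1⟩
  have h1 : Le (par^[dep v - dep u] v) v := ⟨_, rfl⟩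
  have h2 : dep (par^[dep v - dep u] v) = dep u := by
    rw [dep_iter]
    omega
  generalize par^[dep v - dep u] v = w at h1 h2
  have h3 : code u ≠ code w := fun e => h (ex_code.choose_spec e ▸ h1)
  obtain ⟨j, hj⟩ := Function.ne_iff.1 h3
  refine ⟨j, fun k h4 h5 => ?_⟩
  by_contra h6
  have h7 := h4.2 u Le.rfl h4.1 ⟨j, not_le.1 h6⟩
  have h8 := h5.2 w h1 (h2 ▸ h4.1) ⟨j, not_le.1 h6⟩
  simp only [h2] at h8
  exact hj (h7.symm.trans h8)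

def A (a : T) : Set Om := {k | ∃ t, Top a t ∧ k ∈ J t}

lemma Po.subA {a c : T} (h : Po a c) : A c ⊆ A a := by
  rintro k ⟨t, h1, h2⟩
  obtain ⟨s, h3, h4⟩ := h.1 t h1
  exact ⟨s, h3, J_mono h4 h2⟩

lemma A_sub_J {u c : T} (h : Le u (par c)) : A c ⊆ J u :=
  fun _ ⟨_, h1, h2⟩ => J_mono (le_top h h1) h2

lemma outA {y : X} {a : T} (h : y ∉ Bs a) :
    ∃ c, y ∈ Bs c ∧ Bs c ⊆ (Bs a)ᶜ ∧ A c ⊆ (A a)ᶜ := by
  obtain ⟨v, h1, -, F, hF, h3, h4⟩ := out h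
  obtain ⟨v', h1', h2'⟩ := out' h
  have h5 : ∀ f : F, ∃ N, ∀ k ∈ J f, k ∈ J v → k.1 ≤ N := fun f => J_bdd (h3 f f.2).1 (h3 f f.2).2
  choose N hN using h5
  have : Finite F := hF
  obtain ⟨M, hM⟩ := (Set.finite_range N).bddAbove
  obtain ⟨w, h6, h7⟩ := ex_dep y (M + dep v + dep v')
  obtain ⟨K, hK⟩ := loc_par h6
  obtain ⟨c, hc⟩ := ex_loc y K
  refine ⟨c, hc.mem, (Bs_sub_I ((h1'.of_dep h6 (by omega)).trans (hK c hc))).trans h2', ?_⟩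
  rintro k hk ⟨t, h8, h9⟩
  obtain ⟨f, hf, h10⟩ := h4 t h8
  have h11 := A_sub_J (hK c hc) hk
  have h12 := hN ⟨f, hf⟩ k (J_mono h10 h9) (J_mono (h1.of_dep h6 (by omega)) h11)
  have h13 := hM ⟨⟨f, hf⟩, rfl⟩
  have h14 := h11.1
  omega

lemma missA (y : X) (k : Om) : ∃ c, y ∈ Bs c ∧ k ∉ A c := by
  obtain ⟨w, h6, h7⟩ := ex_dep y k.1
  obtain ⟨K, hK⟩ := loc_par h6
  obtain ⟨c, hc⟩ := ex_loc y K
  refine ⟨c, hc.mem, fun h => ?_⟩
  have := (A_sub_J (hK c hc) h).1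
  omega

def Z : Type := X ⊕ Om × (ℕ → Bool)

def BZ (a : T) : Set Z := {z | Sum.elim (fun y => y ∈ Bs a) (fun q => q.1 ∈ A a) z}

def OZ (k : Om) (O : Set (ℕ → Bool)) : Set Z :=
  {z | Sum.elim (fun _ => False) (fun q => q.1 = k ∧ q.2 ∈ O) z}

def BB : Set (Set Z) := range BZ ∪ {U | ∃ k O, IsClopen O ∧ U = OZ k O}

instance : TopologicalSpace Z := generateFrom BB

lemma BZ_sub {a c : T} (h : Bs c ⊆ Bs a) (h' : A c ⊆ A a) : BZ c ⊆ BZ a := by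
  rintro (y | q) hz
  · exact h hz
  · exact h' hz

lemma basisZ : IsTopologicalBasis BB := by
  refine ⟨?_, ?_, rfl⟩
  · rintro _ (⟨a, rfl⟩ | ⟨k, O, hO, rfl⟩) _ (⟨b, rfl⟩ | ⟨k', O', hO', rfl⟩) (y | q) ⟨h1, h2⟩
    · obtain ⟨c, h3, h4, h5⟩ := common (y := y) h1 h2
      exact ⟨_, Or.inl ⟨c, rfl⟩, h3, subset_inter (BZ_sub h4.sub h4.subA) (BZ_sub h5.sub h5.subA)⟩
    · refine ⟨_, Or.inr ⟨q.1, univ, isClopen_univ, rfl⟩, ⟨rfl, trivial⟩, ?_⟩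
      rintro (y | r) h
      · exact h.elim
      · exact ⟨show r.1 ∈ A a from h.1 ▸ h1, show r.1 ∈ A b from h.1 ▸ h2⟩
    · exact h2.elim
    · refine ⟨_, Or.inr ⟨k', O', hO', rfl⟩, h2, ?_⟩
      rintro (y | r) h
      · exact h.elim
      · exact ⟨show r.1 ∈ A a from (h.1.trans h2.1.symm) ▸ h1, h⟩
    · exact h1.elim
    · refine ⟨_, Or.inr ⟨k, O, hO, rfl⟩, h1, ?_⟩
      rintro (y | r) h
      · exact h.elim
      · exact ⟨h, show r.1 ∈ A b from (h.1.trans h1.1.symm) ▸ h2⟩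
    · exact h1.elim
    · refine ⟨_, Or.inr ⟨k, O ∩ O', hO.inter hO', rfl⟩, ⟨h1.1, h1.2, h2.2⟩, ?_⟩
      rintro (y | r) h
      · exact h.elim
      · exact ⟨⟨h.1, h.2.1⟩, (h.1.trans h1.1.symm).trans h2.1, h.2.2⟩
  · refine eq_univ_of_forall ?_
    rintro (y | q)
    · obtain ⟨c, hc⟩ := ex_loc y 0
      exact ⟨_, Or.inl ⟨c, rfl⟩, hc.mem⟩
    · exact ⟨_, Or.inr ⟨q.1, univ, isClopen_univ, rfl⟩, rfl, trivial⟩

lemma closedZ {U : Set Z} (h : U ∈ BB) : IsClosed U := by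
  rw [← isOpen_compl_iff, basisZ.isOpen_iff]
  rcases h with ⟨a, rfl⟩ | ⟨k, O, hO, rfl⟩ <;> rintro (y | q) hz
  · obtain ⟨c, h1, h2, h3⟩ := outA (y := y) hz
    refine ⟨_, Or.inl ⟨c, rfl⟩, h1, ?_⟩
    rintro (w | r) h
    · exact h2 h
    · exact h3 h
  · refine ⟨_, Or.inr ⟨q.1, univ, isClopen_univ, rfl⟩, ⟨rfl, trivial⟩, ?_⟩
    rintro (w | r) h h'
    · exact h.elim
    · exact hz (show q.1 ∈ A a from h.1 ▸ h')
  · obtain ⟨c, h1, h2⟩ := missA y k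
    refine ⟨_, Or.inl ⟨c, rfl⟩, h1, ?_⟩
    rintro (w | r) h h'
    · exact h'.elim
    · exact h2 (h'.1 ▸ h)
  · by_cases e : q.1 = k
    · refine ⟨_, Or.inr ⟨k, Oᶜ, hO.compl, rfl⟩, ⟨e, fun h => hz ⟨e, h⟩⟩, ?_⟩
      rintro (w | r) h h'
      · exact h.elim
      · exact h.2 h'.2
    · refine ⟨_, Or.inr ⟨q.1, univ, isClopen_univ, rfl⟩, ⟨rfl, trivial⟩, ?_⟩
      rintro (w | r) h h'
      · exact h.elim
      · exact e (h.1.symm.trans h'.1)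

instance : RegularSpace Z :=
  RegularSpace.of_hasBasis (fun _ => basisZ.nhds_hasBasis) fun _ _ h => closedZ h.1

instance : T0Space Z := by
  rw [t0Space_iff_inseparable]
  intro z w h
  have key : ∀ U ∈ BB, z ∈ U ↔ w ∈ U := fun U hU => h.mem_open_iff (basisZ.isOpen hU)
  rcases z with y | q <;> rcases w with y' | q'
  · have : Inseparable y y' := by
      rw [basis.inseparable_iff]
      rintro _ ⟨a, rfl⟩
      exact key _ (Or.inl ⟨a, rfl⟩)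
    rw [this.eq]
  · exact ((key _ (Or.inr ⟨q'.1, univ, isClopen_univ, rfl⟩)).2 ⟨rfl, trivial⟩).elim
  · exact ((key _ (Or.inr ⟨q.1, univ, isClopen_univ, rfl⟩)).1 ⟨rfl, trivial⟩).elim
  · have h1 : q'.1 = q.1 := ((key _ (Or.inr ⟨q.1, univ, isClopen_univ, rfl⟩)).1 ⟨rfl, trivial⟩).1
    have h2 : q'.2 = q.2 := by
      funext n
      have hc : IsClopen {f : ℕ → Bool | f n = q.2 n} :=
        (isClopen_discrete {q.2 n}).preimage (continuous_apply n)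
      exact ((key _ (Or.inr ⟨q.1, _, hc, rfl⟩)).1 ⟨rfl, rfl⟩).2
    rw [Prod.ext h1 h2]

instance : T3Space Z := {}

lemma noisoZ (z : Z) : ¬ IsOpen ({z} : Set Z) := by
  intro h
  obtain ⟨_, ⟨a, rfl⟩ | ⟨k, O, hO, rfl⟩, h1, h2⟩ :=
    basisZ.exists_subset_of_mem_open (mem_singleton z) h
  · obtain ⟨y, hy⟩ := ex_pt a
    obtain ⟨y', h3, h4⟩ := two_pts a y
    have h5 := h2 (show (Sum.inl y : Z) ∈ BZ a from I_sub (top_self a) hy)
    have h6 := h2 (show (Sum.inl y' : Z) ∈ BZ a from I_sub (top_self a) h3)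
    exact h4 (Sum.inl_injective (h6.trans h5.symm))
  · rcases z with y | q
    · exact h1.elim
    · obtain ⟨s, u, hu, hs⟩ := isOpen_pi_iff.1 hO.isOpen q.2 h1.2
      obtain ⟨n, hn⟩ := Infinite.exists_notMem_finset s
      have h3 : update q.2 n (!q.2 n) ∈ O := hs fun i hi => by
        rw [update_of_ne (show i ≠ n from fun e => hn (by rw [← e]; exact hi))]
        exact (hu i hi).2
      have h4 := h2 (show (Sum.inr (k, update q.2 n (!q.2 n)) : Z) ∈ OZ k O from ⟨rfl, h3⟩)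
      have h5 := congrFun (congrArg Prod.snd (Sum.inr_injective h4)) n
      simp at h5

lemma sepZ : SeparableSpace Z := by
  obtain ⟨D, hD, hD'⟩ := exists_countable_dense (ℕ → Bool)
  refine ⟨Sum.inr '' (univ ×ˢ D), (countable_univ.prod hD).image _, basisZ.dense_iff.2 ?_⟩
  rintro _ (⟨a, rfl⟩ | ⟨k, O, hO, rfl⟩) hne
  · obtain ⟨k, hk⟩ := J_ne a
    obtain ⟨d, hd⟩ := hD'.nonempty
    exact ⟨Sum.inr (k, d), ⟨a, top_self a, hk⟩, _, ⟨trivial, hd⟩, rfl⟩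
  · obtain ⟨y | q, h⟩ := hne
    · exact h.elim
    · obtain ⟨d, h1, h2⟩ := hD'.inter_open_nonempty O hO.isOpen ⟨_, h.2⟩
      exact ⟨Sum.inr (k, d), ⟨rfl, h1⟩, _, ⟨trivial, h2⟩, rfl⟩

lemma not_resZ (B0 B1 : Set (Set Z)) (h : B0 ∪ B1 ⊆ BB) (hd : Disjoint B0 B1) :
    ¬ (IsTopologicalBasis B0 ∧ IsTopologicalBasis B1) := by
  rintro ⟨h0, h1⟩
  have hs : ∀ a b, BZ a ⊆ BZ b → Bs a ⊆ Bs b := fun a b h y hy =>
    h (show (Sum.inl y : Z) ∈ BZ a from hy)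
  obtain ⟨y, b, hy, -, ⟨-, h2⟩ | ⟨-, -, h2⟩⟩ := ramsey fun a => BZ a ∈ B0
  · obtain ⟨V, hV, h3, h4⟩ := h0.exists_subset_of_mem_open
      (show (Sum.inl y : Z) ∈ BZ b from hy) (basisZ.isOpen (Or.inl ⟨b, rfl⟩))
    rcases h (Or.inl hV) with ⟨a, rfl⟩ | ⟨k, O, -, rfl⟩
    · exact h2 a h3 (hs _ _ h4) hV
    · exact h3
  · obtain ⟨V, hV, h3, h4⟩ := h1.exists_subset_of_mem_open
      (show (Sum.inl y : Z) ∈ BZ b from hy) (basisZ.isOpen (Or.inl ⟨b, rfl⟩))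
    rcases h (Or.inr hV) with ⟨a, rfl⟩ | ⟨k, O, -, rfl⟩
    · exact Set.disjoint_left.1 hd (h2 a h3 (hs _ _ h4)) hV
    · exact h3

end Pool.Agent.H.MP_87f021_gt
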